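import Pool.Agent.MP_d5eec5_gt.H77.GBasic

/-! The letters next to the tail and to the head (row R2, helper79). -/

set_option autoImplicit false

namespace Pool.Agent.MP_d5eec5_gt.H77

open Pool.Agent.MP_d5eec5_gt.H48 Finset

theorem r2_alt (f : ℕ → ℕ) (m : ℕ) :
    ∑ k ∈ range m, (if k % 2 = 1 then f k + f (k + 1) else 0) + f 0 +
        (if m % 2 = 1 then f m else 0) =
      ∑ k ∈ range m, (if k % 2 = 1 then 0 else f k + f (k + 1)) +
        (if m % 2 = 1 then 0 else f m) := by
  induction m with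
  | zero => simp
  | succ m ih =>
    rw [sum_range_succ, sum_range_succ]
    by_cases h : m % 2 = 1
    · have h' : ¬ (m + 1) % 2 = 1 := by omega
      simp only [h, h', if_true, if_false] at ih ⊢
      omega
    · have h' : (m + 1) % 2 = 1 := by omega
      simp only [h, h', if_true, if_false] at ih ⊢
      omega

theorem r2_drop {η x : Fin 3} {v : Wd} {p : ℕ → ℚ} (h : Fit 1 η (x :: v) p) :
    Fit 1 η v (drop1 p) where
  h0 := h.h0
  h1 := h.h1
  mem := fun j y hy => h.mem (j + 1) y (by simpa using hy)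
  inj := by
    intro a ha b hb e
    have ha' : a ≤ v.length + 1 := ha
    have hb' : b ≤ v.length + 1 := hb
    unfold drop1 at e
    split_ifs at e with h1 h2 h2
    · omega
    · exact absurd e (h.ne (by omega) (by simp; omega) (by omega))
    · exact absurd e (h.ne (by simp; omega) (by omega) (by omega))
    · have := h.inj (show a + 1 ≤ (x :: v).length + 1 by simp; omega)
        (show b + 1 ≤ (x :: v).length + 1 by simp; omega) e
      omega

/-- A point between the tail and the first point has the first letter. -/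
theorem r2_letter {η x : Fin 3} {v : Wd} {p : ℕ → ℚ} (h : Fit 1 η (x :: v) p) (hx : x ≠ 2)
    {j : ℕ} (hj : j ≤ v.length + 1) (hb : btw (p 0) (p 1) (p (j + 1))) :
    (x :: v)[j]? = some x := by
  have h0 := h.h0
  have h1 := h.mem 0 x (by simp)
  have h2 : (x.val : ℚ) < p (j + 1) ∧ p (j + 1) < (x.val : ℚ) + 1 := by
    rw [btw_iff, h0] at hb
    fin_cases x
    · simp at h1 hb ⊢
      rcases hb with hb | hb <;> constructor <;> linarith [hb.1, hb.2, h1.1, h1.2]
    · simp at h1 hb ⊢
      rcases hb with hb | hb <;> constructor <;> linarith [hb.1, hb.2, h1.1, h1.2]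
    · exact absurd rfl hx
  rcases hj.eq_or_lt with rfl | hj'
  · have h3 : p (v.length + 1 + 1) = (η.val : ℚ) := h.h1
    rw [h3] at h2
    have h4 : x.val < η.val := by exact_mod_cast h2.1
    have h5 : η.val < x.val + 1 := by exact_mod_cast h2.2
    omega
  · have hl : j < (x :: v).length := by simpa using hj'
    have h3 := h.mem j _ (List.getElem?_eq_getElem hl)
    have h4 : ((x :: v)[j]).val < x.val + 1 := by exact_mod_cast h3.1.trans h2.2
    have h5 : x.val < ((x :: v)[j]).val + 1 := by exact_mod_cast h2.1.trans h3.2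
    rw [List.getElem?_eq_getElem hl]
    congr 1
    exact Fin.ext (by omega)

theorem r2_chain {w : Wd} (hw : w.IsChain (· ≠ ·)) {j : ℕ} {x : Fin 3} (h1 : w[j]? = some x)
    (h2 : w[j + 1]? = some x) : False := by
  obtain ⟨a, ha⟩ := List.getElem?_eq_some_iff.1 h1
  obtain ⟨b, hb⟩ := List.getElem?_eq_some_iff.1 h2
  exact List.isChain_iff_getElem.1 hw j b (ha.trans hb.symm)

theorem r2_one (hG : StmtG0) (hS : StmtSplit1) {η x : Fin 3} {v : Wd} (hη : 1 ≠ η)
    (hw : (x :: v).IsChain (· ≠ ·)) (hx : x ≠ 2) : IG 1 η v ≤ IG 1 η (x :: v) := by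
  obtain ⟨p, hp, e⟩ := hG.1 1 η (x :: v) hη
  refine (IG_le (r2_drop hp)).trans ?_
  rw [← e, List.length_cons]
  have h1 := hS v.length p
  set f : ℕ → ℕ := fun k => if btw (p 0) (p 1) (p (k + 2)) then 1 else 0 with hf
  have h2 := r2_alt f v.length
  have f0 : f 0 = 0 := if_neg fun hb =>
    r2_chain hw (j := 0) (by simp) (r2_letter hp hx (j := 1) (by omega) hb)
  have fm : f v.length = 0 := if_neg fun hb => by
    have := r2_letter hp hx (j := v.length + 1) le_rfl hb
    simp at this
  have h3 : ∀ k ∈ range v.length, c1 (p 0) (p 1) (p (k + 2)) (p (k + 3)) = f k + f (k + 1) := by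
    intro k hk
    have hk' := mem_range.1 hk
    have h4 : ¬ (btw (p 0) (p 1) (p (k + 2)) ∧ btw (p 0) (p 1) (p (k + 3))) := fun hb =>
      r2_chain hw (r2_letter hp hx (j := k + 1) (by omega) hb.1)
        (r2_letter hp hx (j := k + 2) (by omega) hb.2)
    simp only [c1, hf]
    by_cases q1 : btw (p 0) (p 1) (p (k + 2)) <;> by_cases q2 : btw (p 0) (p 1) (p (k + 3)) <;>
      simp_all
  have h5 : ∑ k ∈ range v.length, (if k % 2 = 1 then c1 (p 0) (p 2) (p (k + 2)) (p (k + 3)) else 0)
      + ∑ k ∈ range v.length, (if k % 2 = 1 then 0 else f k + f (k + 1)) ≤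
      ∑ k ∈ range v.length, (if k % 2 = 1 then c1 (p 1) (p 2) (p (k + 2)) (p (k + 3))
        else c1 (p 0) (p 1) (p (k + 2)) (p (k + 3))) +
      ∑ k ∈ range v.length, (if k % 2 = 1 then f k + f (k + 1) else 0) := by
    rw [← sum_add_distrib, ← sum_add_distrib]
    refine sum_le_sum fun k hk => ?_
    have hk' := mem_range.1 hk
    rw [← h3 k hk]
    split_ifs with hk2
    · have ne : ∀ a b, a ≤ 2 → 3 ≤ b → b ≤ v.length + 2 → p a ≠ p b := fun a b ha hb hb' =>
        hp.ne (by simp; omega) (by simp; omega) (by omega)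
      have s : ∀ a b, a ≤ 2 → b ≤ 2 → c1 (p a) (p b) (p (k + 2)) (p (k + 3)) =
          c1 (p (k + 2)) (p (k + 3)) (p a) (p b) := fun a b ha hb =>
        c1_symm (ne _ _ ha (by omega) (by omega)) (ne _ _ ha (by omega) (by omega))
          (ne _ _ hb (by omega) (by omega)) (ne _ _ hb (by omega) (by omega))
      rw [s 0 2 (by omega) le_rfl, s 1 2 (by omega) le_rfl, s 0 1 (by omega) (by omega)]
      have := c1_tri (p (k + 2)) (p (k + 3)) (p 0) (p 1) (p 2)
      omega
    · omega
  simp only [f0, fm, ite_self, add_zero] at h2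
  omega

theorem r2_gap (q : ℕ → ℚ) (n : ℕ) (h : ∀ k, 1 ≤ k → k ≤ n → q k ≠ 1) :
    ∃ δ : ℚ, 0 < δ ∧ δ < 1 ∧ ∀ k, 1 ≤ k → k ≤ n → δ < |q k - 1| := by
  induction n with
  | zero => exact ⟨1 / 2, by norm_num, by norm_num, fun k h1 h2 => by omega⟩
  | succ n ih =>
    obtain ⟨δ, h1, h2, h3⟩ := ih fun k a b => h k a (by omega)
    have h4 : 0 < |q (n + 1) - 1| := abs_pos.2 (sub_ne_zero.2 (h _ (by omega) le_rfl))
    refine ⟨min δ (|q (n + 1) - 1| / 2), lt_min h1 (by linarith), (min_le_left _ _).trans_lt h2,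
      fun k a b => ?_⟩
    rcases b.eq_or_lt with rfl | b
    · exact (min_le_right _ _).trans_lt (by linarith)
    · exact (min_le_left _ _).trans_lt (h3 k a (by omega))

/-- Insert the point `r` after the tail. -/
def r2_ins (r : ℚ) (q : ℕ → ℚ) : ℕ → ℚ
  | 0 => q 0
  | 1 => r
  | k + 2 => q (k + 1)

theorem r2_three (hG : StmtG0) (hS : StmtSplit1) {η x : Fin 3} (v : Wd) (hη : 1 ≠ η)
    (hx : x ≠ 2) : IG 1 η (x :: v) ≤ IG 1 η v := by
  obtain ⟨q, hq, e⟩ := hG.1 1 η v hη
  have h0 : q 0 = 1 := by simpa using hq.h0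
  obtain ⟨δ, d0, d1, hδ⟩ := r2_gap q (v.length + 1) fun k a b => by
    rw [← h0]
    exact hq.ne b (by omega) (by omega)
  obtain ⟨r, r1, r2, r3, r4⟩ : ∃ r : ℚ, (x.val : ℚ) < r ∧ r < (x.val : ℚ) + 1 ∧ r ≠ 1 ∧
      |r - 1| ≤ δ := by
    fin_cases x
    · refine ⟨1 - δ, by simpa using d1, by simpa using d0, by linarith, ?_⟩
      rw [abs_le]
      constructor <;> linarith
    · refine ⟨1 + δ, by simpa using d0, by simpa using d1, by linarith, ?_⟩
      rw [abs_le]
      constructor <;> linarith
    · exact absurd rfl hx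
  have hr := abs_le.1 r4
  have out : ∀ k, 1 ≤ k → k ≤ v.length + 1 →
      (q k < 1 ∧ q k < r) ∨ (1 < q k ∧ r < q k) := by
    intro k a b
    rcases lt_abs.1 (hδ k a b) with h | h
    · exact Or.inr ⟨by linarith, by linarith [hr.2]⟩
    · exact Or.inl ⟨by linarith, by linarith [hr.1]⟩
  have hp : Fit 1 η (x :: v) (r2_ins r q) :=
    { h0 := hq.h0
      h1 := hq.h1
      mem := by
        rintro (_ | j) y hy
        · obtain rfl : x = y := by simpa using hy
          exact ⟨r1, r2⟩
        · exact hq.mem j y (by simpa using hy)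
      inj := by
        have n1 : ∀ k, k + 2 ≤ (x :: v).length + 1 → q (k + 1) ≠ q 0 ∧ q (k + 1) ≠ r := by
          intro k hk
          rw [h0]
          rcases out (k + 1) (by omega) (by simpa using hk) with h | h
          · exact ⟨h.1.ne, h.2.ne⟩
          · exact ⟨h.1.ne', h.2.ne'⟩
        rintro (_ | _ | a) ha (_ | _ | b) hb e
        · rfl
        · exact absurd (h0.symm.trans e).symm r3
        · exact absurd e.symm (n1 b hb).1
        · exact absurd (e.trans h0) r3
        · rfl
        · exact absurd e.symm (n1 b hb).2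
        · exact absurd e (n1 a ha).1
        · exact absurd e (n1 a ha).2
        · have := hq.inj (show a + 1 ≤ v.length + 1 by simpa using ha)
            (show b + 1 ≤ v.length + 1 by simpa using hb) e
          omega }
  refine (IG_le hp).trans ?_
  have h1 := hS v.length (r2_ins r q)
  have h2 : X v.length (drop1 (r2_ins r q)) = X v.length q := X_congr fun k _ => by
    rcases k with _ | k <;> rfl
  have b1 : ∀ k, 1 ≤ k → k ≤ v.length + 1 → ¬ btw (q 0) r (q k) := by
    intro k a b hb
    rw [btw_iff, h0] at hb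
    rcases out k a b with h | h <;> rcases hb with hb | hb <;>
      linarith [h.1, h.2, hb.1, hb.2]
  have b2 : ∀ k, 1 ≤ k → k ≤ v.length + 1 → (btw r (q 1) (q k) ↔ btw (q 0) (q 1) (q k)) := by
    intro k a b
    rw [btw_iff, btw_iff, h0]
    rcases out k a b with h | h <;> simp [h.1, h.2, h.1.not_gt, h.2.not_gt]
  have h3 : ∑ k ∈ range v.length, (if k % 2 = 1 then c1 (r2_ins r q 1) (r2_ins r q 2)
        (r2_ins r q (k + 2)) (r2_ins r q (k + 3))
      else c1 (r2_ins r q 0) (r2_ins r q 1) (r2_ins r q (k + 2)) (r2_ins r q (k + 3))) =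
      ∑ k ∈ range v.length, (if k % 2 = 1 then c1 (r2_ins r q 0) (r2_ins r q 2)
        (r2_ins r q (k + 2)) (r2_ins r q (k + 3)) else 0) := by
    refine sum_congr rfl fun k hk => ?_
    have hk' := mem_range.1 hk
    simp only [r2_ins, c1, b2 (k + 1) (by omega) (by omega), b2 (k + 2) (by omega) (by omega),
      b1 (k + 1) (by omega) (by omega), b1 (k + 2) (by omega) (by omega), if_true]
    rfl
  rw [h2, h3, e] at h1
  rw [List.length_cons]
  omega

theorem r2_turn (hG : StmtG0) (w : Wd) :
    I w = IG 1 0 ((w.reverse.map (· + 1)).map (· + 1)) := by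
  have h1 := hG.2.2 1 2 w
  have h2 := hG.2.1 2 1 w.reverse
  have h3 := hG.2.1 0 2 (w.reverse.map (· + 1))
  exact ((h3.trans h2).trans h1).symm

theorem r2_of : StmtG0 → StmtSplit1 → StmtR2 := by
  intro hG hS
  refine ⟨fun x v hw hx => r2_one hG hS (by decide) hw hx, fun x v hw hx => ?_,
    fun v => r2_three hG hS v (by decide) (by decide), fun v => ?_⟩
  · rw [r2_turn hG, r2_turn hG (v ++ [x]), List.reverse_concat', List.map_cons, List.map_cons]
    refine r2_one hG hS (by decide) ?_ (by clear hw; revert x; decide)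
    rw [← List.map_cons (f := (· + 1)), ← List.map_cons (f := (· + 1)), ← List.reverse_concat',
      List.isChain_map, List.isChain_map, List.isChain_reverse]
    exact hw.imp fun a b h e => h (by simpa using e.symm)
  · rw [r2_turn hG v, r2_turn hG (v ++ [2]), List.reverse_concat', List.map_cons, List.map_cons]
    exact r2_three hG hS _ (by decide) (by decide)

end Pool.Agent.MP_d5eec5_gt.H77
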